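import Pool.Agent.Run7.h432.LV.Stm

/-!
# Piece LIN of project LV (helper432, MP_8daa5c_al): linearisation of `s ^ n ∈ A`
-/

set_option autoImplicit false

namespace Run7.h340.LV

open Run7.h432.LV Finset

universe u

/-- the coefficient of `t ^ k` in `(y + t x) ^ n` -/
def cf {U : Type u} [Ring U] (x y : U) : ℕ → ℕ → U
  | 0, 0 => 1
  | 0, _ + 1 => 0
  | n + 1, 0 => y * cf x y n 0
  | n + 1, k + 1 => y * cf x y n (k + 1) + x * cf x y n k

theorem cf_gt {U : Type u} [Ring U] (x y : U) : ∀ n k : ℕ, n < k → cf x y n k = 0 := by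
  intro n
  induction n with
  | zero =>
    intro k hk
    cases k with
    | zero => omega
    | succ k => simp [cf]
  | succ n ih =>
    intro k hk
    cases k with
    | zero => omega
    | succ k =>
      simp only [cf]
      rw [ih (k + 1) (by omega), ih k (by omega)]
      simp

theorem cf_top {U : Type u} [Ring U] (x y : U) : ∀ n : ℕ, cf x y n n = x ^ n := by
  intro n
  induction n with
  | zero => simp [cf]
  | succ n ih =>
    simp only [cf]
    rw [cf_gt x y n (n + 1) (by omega), ih, pow_succ']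
    simp

theorem cf_sub {U : Type u} [Ring U] (x y : U) :
    ∀ n : ℕ, cf x y (n + 1) n = ∑ i ∈ range (n + 1), x ^ i * y * x ^ (n - i) := by
  intro n
  induction n with
  | zero => simp [cf]
  | succ n ih =>
    rw [cf, cf_top, ih, Finset.sum_range_succ' _ (n + 1), Finset.mul_sum, add_comm]
    congr 1
    · refine Finset.sum_congr rfl fun i hi => ?_
      rw [pow_succ', Nat.add_sub_add_right]
      simp only [mul_assoc]
    · simp

theorem pow_cf {U : Type u} [Ring U] (x y : U) (t : ℕ) :
    ∀ n : ℕ, (y + t • x) ^ n = ∑ k ∈ range (n + 1), (t ^ k) • cf x y n k := by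
  intro n
  induction n with
  | zero => simp [cf]
  | succ n ih =>
    rw [pow_succ', ih, Finset.sum_range_succ' _ (n + 1), add_mul, Finset.mul_sum, Finset.mul_sum]
    simp only [cf, smul_add]
    rw [Finset.sum_add_distrib]
    have h1 : ∑ k ∈ range (n + 1), t ^ (k + 1) • (y * cf x y n (k + 1)) + t ^ 0 • (y * cf x y n 0)
        = ∑ k ∈ range (n + 1), y * t ^ k • cf x y n k := by
      rw [← Finset.sum_range_succ' (fun k => t ^ k • (y * cf x y n k)) (n + 1),
        Finset.sum_range_succ, cf_gt x y n (n + 1) (by omega)]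
      simp only [mul_zero, smul_zero, add_zero, mul_smul_comm]
    have h2 : ∑ k ∈ range (n + 1), t ^ (k + 1) • (x * cf x y n k)
        = ∑ k ∈ range (n + 1), t • x * t ^ k • cf x y n k := by
      refine Finset.sum_congr rfl fun k hk => ?_
      rw [mul_smul_comm, smul_mul_assoc, smul_smul, pow_succ]
    rw [← h1, ← h2]
    abel

/-- Vandermonde: the coefficients of a polynomial function with values in `A`. -/
theorem vand {U : Type u} [Ring U] (A : Ideal U) (n : ℕ) (hn : Inv U n) (c : ℕ → U)
    (h : ∀ t : ℕ, ∑ k ∈ range (n + 1), (t ^ k) • c k ∈ A) : ∀ k, k ≤ n → c k ∈ A := by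
  have hu : ∀ k : ℕ, 0 < k → k ≤ n → ∀ a : U, (k : U) * a ∈ A → a ∈ A := by
    intro k hk hkn a ha
    obtain ⟨u, hu⟩ := hn k hk hkn
    have h1 := A.mul_mem_left (↑u⁻¹ : U) ha
    rwa [← hu, ← mul_assoc, Units.inv_mul, one_mul] at h1
  have hf : ∀ k : ℕ, k ≤ n → ∀ a : U, ((k.factorial : ℕ) : U) * a ∈ A → a ∈ A := by
    intro k
    induction k with
    | zero => intro _ a ha; simpa using ha
    | succ k ih =>
      intro hk a ha
      rw [Nat.factorial_succ, Nat.cast_mul, mul_assoc] at ha
      exact ih (by omega) a (hu (k + 1) (by omega) hk _ ha)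
  have hs : ∀ k : ℕ, k ≤ n → ∀ a : U, ((k.superFactorial : ℕ) : U) * a ∈ A → a ∈ A := by
    intro k
    induction k with
    | zero => intro _ a ha; simpa using ha
    | succ k ih =>
      intro hk a ha
      rw [Nat.superFactorial_succ, Nat.cast_mul, mul_assoc] at ha
      exact ih (by omega) a (hf (k + 1) hk _ ha)
  intro j hj
  set V : Matrix (Fin (n + 1)) (Fin (n + 1)) ℤ := Matrix.vandermonde (fun i => ((i : ℕ) : ℤ))
    with hV
  have hdet : V.det = (n.superFactorial : ℤ) := by
    rw [hV]
    exact Matrix.det_vandermonde_id_eq_superFactorial (R := ℤ) n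
  have key : ∑ i : Fin (n + 1), V.adjugate ⟨j, by omega⟩ i •
      (∑ k : Fin (n + 1), V i k • c k) = V.det • c j := by
    have h1 : ∀ i : Fin (n + 1), V.adjugate ⟨j, by omega⟩ i • (∑ k : Fin (n + 1), V i k • c k)
        = ∑ k : Fin (n + 1), (V.adjugate ⟨j, by omega⟩ i * V i k) • c k := by
      intro i
      rw [Finset.smul_sum]
      exact Finset.sum_congr rfl fun k _ => by rw [smul_smul]
    simp only [h1]
    rw [Finset.sum_comm]
    have h2 : ∀ k : Fin (n + 1), ∑ i : Fin (n + 1), (V.adjugate ⟨j, by omega⟩ i * V i k) • c k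
        = (V.adjugate * V) ⟨j, by omega⟩ k • c k := by
      intro k
      rw [← Finset.sum_smul, Matrix.mul_apply]
    simp only [h2]
    rw [Matrix.adjugate_mul, Finset.sum_eq_single (⟨j, by omega⟩ : Fin (n + 1))]
    · simp
    · intro b _ hb
      rw [Matrix.smul_apply, Matrix.one_apply_ne (Ne.symm hb)]
      simp
    · intro hb
      exact absurd (Finset.mem_univ _) hb
  have hmem : V.det • c j ∈ A := by
    rw [← key]
    refine A.sum_mem fun i _ => ?_
    have h3 : ∑ k : Fin (n + 1), V i k • c k ∈ A := by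
      have h4 := h (i : ℕ)
      rw [Finset.sum_range (fun k => ((i : ℕ) ^ k) • c k)] at h4
      have h5 : ∑ k : Fin (n + 1), V i k • c k
          = ∑ k : Fin (n + 1), ((i : ℕ) ^ (k : ℕ)) • c k := by
        refine Finset.sum_congr rfl fun k _ => ?_
        rw [hV, Matrix.vandermonde_apply, ← Nat.cast_pow, natCast_zsmul]
      rw [h5]
      exact h4
    exact zsmul_mem h3 _
  rw [hdet, natCast_zsmul, nsmul_eq_mul] at hmem
  exact hs n le_rfl _ hmem

theorem t_LIN : S_LIN.{u} := by
  intro U _ I A _ _ n hn hn0 hA x hx y hy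
  obtain ⟨m, rfl⟩ : ∃ m, n = m + 1 := ⟨n - 1, by omega⟩
  have h := vand A (m + 1) hn (cf x y (m + 1)) (fun t => by
    rw [← pow_cf]
    exact hA _ (I.add_mem hy (nsmul_mem hx t))) m (by omega)
  rw [cf_sub] at h
  simpa using h

end Run7.h340.LV
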