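import Pool.Agent.Run7.h340.LV.LIN

/-!
# Piece NH of project LV (helper432, MP_8daa5c_al): Nagata-Higman for an idempotent ideal
-/

set_option autoImplicit false

namespace Run7.h340.LV

open Run7.h432.LV Finset

universe u

/-- the key product `x ^ m z y ^ m` -/
theorem key_mem (h : S_LIN.{u}) {U : Type u} [Ring U] (I A : Ideal U) [I.IsTwoSided]
    [A.IsTwoSided] (m : ℕ) (hm : Inv U (m + 1)) (hA : ∀ s ∈ I, s ^ (m + 1) ∈ A) (x y z : U)
    (hx : x ∈ I) (hy : y ∈ I) (hz : z ∈ I) : x ^ m * z * y ^ m ∈ A := by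
  have hS : ∑ i ∈ range (m + 1), ∑ j ∈ range (m + 1),
      x ^ i * (z * y ^ j) * x ^ (m - i) * y ^ (m - j) ∈ A := by
    rw [Finset.sum_comm]
    refine A.sum_mem fun j _ => ?_
    rw [← Finset.sum_mul]
    refine Ideal.mul_mem_right _ A ?_
    have := h U I A (m + 1) hm (by omega) hA x hx (z * y ^ j) (Ideal.mul_mem_right _ I hz)
    simpa using this
  rw [Finset.sum_range_succ] at hS
  have h1 : ∑ i ∈ range m, ∑ j ∈ range (m + 1),
      x ^ i * (z * y ^ j) * x ^ (m - i) * y ^ (m - j) ∈ A := by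
    refine A.sum_mem fun i hi => ?_
    have hi' : i < m := Finset.mem_range.1 hi
    have hxi : x ^ (m - i) ∈ I := by
      obtain ⟨k, hk⟩ : ∃ k, m - i = k + 1 := ⟨m - i - 1, by omega⟩
      rw [hk, pow_succ]
      exact I.mul_mem_left _ hx
    have h2 := h U I A (m + 1) hm (by omega) hA y hy (x ^ (m - i)) hxi
    have h3 := A.mul_mem_left (x ^ i * z) h2
    rw [Finset.mul_sum] at h3
    have h4 : ∑ j ∈ range (m + 1), x ^ i * (z * y ^ j) * x ^ (m - i) * y ^ (m - j)
        = ∑ j ∈ range (m + 1), x ^ i * z * (y ^ j * x ^ (m - i) * y ^ (m + 1 - 1 - j)) := by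
      refine Finset.sum_congr rfl fun j _ => ?_
      simp only [mul_assoc, Nat.add_sub_cancel]
    rw [h4]
    exact h3
  have h5 : ∑ j ∈ range (m + 1), x ^ m * (z * y ^ j) * x ^ (m - m) * y ^ (m - j) ∈ A := by
    have h6 := A.sub_mem hS h1
    rwa [add_sub_cancel_left] at h6
  have h7 : ∑ j ∈ range (m + 1), x ^ m * (z * y ^ j) * x ^ (m - m) * y ^ (m - j)
      = ((m + 1 : ℕ) : U) * (x ^ m * z * y ^ m) := by
    have h8 : ∀ j ∈ range (m + 1), x ^ m * (z * y ^ j) * x ^ (m - m) * y ^ (m - j)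
        = x ^ m * z * y ^ m := by
      intro j hj
      have hj' : j ≤ m := Nat.lt_succ_iff.1 (Finset.mem_range.1 hj)
      rw [Nat.sub_self, pow_zero, mul_one]
      have h9 : y ^ m = y ^ j * y ^ (m - j) := by
        rw [← pow_add]
        congr 1
        omega
      rw [h9]
      simp only [mul_assoc]
    rw [Finset.sum_congr rfl h8, Finset.sum_const, Finset.card_range, nsmul_eq_mul]
  rw [h7] at h5
  obtain ⟨u, hu⟩ := hm (m + 1) (by omega) le_rfl
  have h10 := A.mul_mem_left (↑u⁻¹ : U) h5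
  rwa [← hu, ← mul_assoc, Units.inv_mul, one_mul] at h10

/-- the left ideal spanned by `A` and the products `x ^ m * b`, `x ∈ I` -/
def ext {U : Type u} [Ring U] (I A : Ideal U) (m : ℕ) : Ideal U :=
  Ideal.span {c : U | c ∈ A ∨ ∃ x ∈ I, ∃ b : U, c = x ^ m * b}

theorem ext_right {U : Type u} [Ring U] (I A : Ideal U) [A.IsTwoSided] (m : ℕ) (b : U) :
    ∀ c ∈ ext I A m, c * b ∈ ext I A m := by
  intro c hc
  unfold ext at hc
  induction hc using Submodule.span_induction with
  | mem c hc =>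
    refine Submodule.subset_span ?_
    rcases hc with hc | ⟨x, hx, d, rfl⟩
    · exact Or.inl (Ideal.mul_mem_right _ A hc)
    · exact Or.inr ⟨x, hx, d * b, by rw [mul_assoc]⟩
  | zero => rw [zero_mul]; exact Ideal.zero_mem _
  | add c d _ _ hc hd => rw [add_mul]; exact Ideal.add_mem _ hc hd
  | smul a c _ hc =>
    rw [smul_eq_mul, mul_assoc]
    exact Ideal.mul_mem_left _ _ hc

theorem mul_pow_mem {U : Type u} [Ring U] (I A : Ideal U) [I.IsTwoSided] [A.IsTwoSided] (m : ℕ)
    (hk : ∀ x y z : U, x ∈ I → y ∈ I → z ∈ I → x ^ m * z * y ^ m ∈ A) (p : U)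
    (hp : p ∈ ext I A m) (q y : U) (hq : q ∈ I) (hy : y ∈ I) : p * q * y ^ m ∈ A := by
  unfold ext at hp
  induction hp using Submodule.span_induction with
  | mem c hc =>
    rcases hc with hc | ⟨x, hx, d, rfl⟩
    · exact Ideal.mul_mem_right _ A (Ideal.mul_mem_right _ A hc)
    · have := hk x y (d * q) hx hy (I.mul_mem_left _ hq)
      simpa only [mul_assoc] using this
  | zero => rw [zero_mul, zero_mul]; exact Ideal.zero_mem _
  | add c d _ _ hc hd => rw [add_mul, add_mul]; exact Ideal.add_mem _ hc hd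
  | smul a c _ hc =>
    rw [smul_eq_mul, mul_assoc, mul_assoc, ← mul_assoc c]
    exact Ideal.mul_mem_left _ _ hc

theorem triple_mem {U : Type u} [Ring U] (I A : Ideal U) [I.IsTwoSided] [A.IsTwoSided] (m : ℕ)
    (hk : ∀ x y z : U, x ∈ I → y ∈ I → z ∈ I → x ^ m * z * y ^ m ∈ A) (p r : U)
    (hp : p ∈ ext I A m) (hr : r ∈ ext I A m) : ∀ q ∈ I, p * q * r ∈ A := by
  unfold ext at hr
  induction hr using Submodule.span_induction with
  | mem c hc =>
    intro q hq
    rcases hc with hc | ⟨y, hy, d, rfl⟩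
    · exact A.mul_mem_left _ hc
    · have := Ideal.mul_mem_right d A (mul_pow_mem I A m hk p hp q y hq hy)
      simpa only [mul_assoc] using this
  | zero => intro q hq; rw [mul_zero]; exact Ideal.zero_mem _
  | add c d _ _ hc hd => intro q hq; rw [mul_add]; exact Ideal.add_mem _ (hc q hq) (hd q hq)
  | smul a c _ hc =>
    intro q hq
    have := hc (q * a) (Ideal.mul_mem_right _ I hq)
    rw [smul_eq_mul]
    simpa only [mul_assoc] using this

theorem mem_of_closure {U : Type u} [Ring U] (A : Ideal U) (S : Set U) (f : U →+ U)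
    (h : ∀ c ∈ S, f c ∈ A) (x : U) (hx : x ∈ AddSubgroup.closure S) : f x ∈ A := by
  induction hx using AddSubgroup.closure_induction with
  | mem c hc => exact h c hc
  | zero => rw [map_zero]; exact Ideal.zero_mem _
  | add c d _ _ hc hd => rw [map_add]; exact Ideal.add_mem _ hc hd
  | neg c _ hc => rw [map_neg]; exact A.neg_mem hc

theorem t_NH (h : S_LIN.{u}) : S_NH.{u} := by
  intro U _ I _ hI m
  induction m with
  | zero =>
    intro _ A _ hA
    have h1 := hA 0 I.zero_mem
    rw [pow_zero] at h1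
    rw [(Ideal.eq_top_iff_one A).2 h1]
    exact le_top
  | succ m ih =>
    intro hm A _ hA
    have hk : ∀ x y z : U, x ∈ I → y ∈ I → z ∈ I → x ^ m * z * y ^ m ∈ A :=
      fun x y z hx hy hz => key_mem h I A m hm hA x y z hx hy hz
    have hm' : Inv U m := fun n hn hnm => hm n hn (by omega)
    haveI : (ext I A m).IsTwoSided := ⟨fun {a} b ha => ext_right I A m b a ha⟩
    have hle : I ≤ ext I A m := ih hm' (ext I A m) (fun s hs =>
      Submodule.subset_span (Or.inr ⟨s, hs, 1, by rw [mul_one]⟩))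
    have h3 : ∀ a ∈ I, ∀ b ∈ I, a * b ∈ A := by
      intro a ha b hb
      refine mem_of_closure A _ (AddMonoidHom.mulRight b) ?_ a (hI a ha)
      rintro c ⟨p, hp, q, hq, rfl⟩
      exact triple_mem I A m hk p b (hle hp) (hle hb) q hq
    intro x hx
    refine mem_of_closure A _ (AddMonoidHom.id U) ?_ x (hI x hx)
    rintro c ⟨p, hp, q, hq, rfl⟩
    exact h3 p hp q hq

theorem nh : S_NH.{u} := t_NH t_LIN

end Run7.h340.LV
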